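import Pool.Agent.H39.TO.Targets

set_option autoImplicit false

namespace Pool.Agent.H1.TOH

open Pool.Agent.H57.CP Pool.Agent.H39.TO

theorem mk_add_right (x y z : V4) : mk x (y + z) = mk x y + mk x z := by
  simp only [mk, Pi.add_apply]
  ring

theorem mk_smul_right (x y : V4) (c : ℝ) : mk x (c • y) = c * mk x y := by
  simp only [mk, Pi.smul_apply, smul_eq_mul]
  ring

theorem mk_zero_right (x : V4) : mk x 0 = 0 := by
  simp [mk]

theorem mk_sum_right {ι : Type} (x : V4) (s : Finset ι) (f : ι → V4) :
    mk x (∑ i ∈ s, f i) = ∑ i ∈ s, mk x (f i) := by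
  classical
  induction s using Finset.induction_on with
  | empty => simp [mk_zero_right]
  | insert a s ha ih => rw [Finset.sum_insert ha, Finset.sum_insert ha, mk_add_right, ih]

theorem refl_apply' (a x : V4) : refl a x = x + (2 * mk a x) • a := by
  ext i
  rfl

/-- an element of the subgroup changes a vector by an element of the span -/
theorem sub_mem_span {M : CoxeterMatrix (Fin 3)} {al : Fin 3 → V4}
    {σ : M.Group →* Module.End ℝ V4} (hσ : Sg M al σ) {i j : Fin 3} {w : M.Group}
    (hw : w ∈ Subgroup.closure {ss M i, ss M j}) (v : V4) :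
    σ w v - v ∈ Submodule.span ℝ {al i, al j} := by
  have key : ∀ u ∈ Subgroup.closure {ss M i, ss M j}, ∀ v : V4,
      σ u v - v ∈ Submodule.span ℝ {al i, al j} := by
    intro u hu
    induction hu using Subgroup.closure_induction with
    | mem x hx =>
      intro v
      rcases hx with rfl | rfl
      · rw [hσ, refl_apply', add_sub_cancel_left]
        exact Submodule.smul_mem _ _ (Submodule.subset_span (Or.inl rfl))
      · rw [hσ, refl_apply', add_sub_cancel_left]
        exact Submodule.smul_mem _ _ (Submodule.subset_span (Or.inr rfl))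
    | one =>
      intro v
      rw [map_one]
      change v - v ∈ _
      rw [sub_self]
      exact Submodule.zero_mem _
    | mul x y _ _ hx hy =>
      intro v
      rw [map_mul]
      change σ x (σ y v) - v ∈ _
      rw [← sub_add_sub_cancel]
      exact Submodule.add_mem _ (hx _) (hy _)
    | inv x _ hx =>
      intro v
      have h1 := hx (σ x⁻¹ v)
      have h2 : σ x (σ x⁻¹ v) = v := by
        have h3 : (σ x * σ x⁻¹) v = v := by
          rw [← map_mul, mul_inv_cancel, map_one]
          rfl
        exact h3
      rw [h2] at h1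
      rw [← neg_sub]
      exact Submodule.neg_mem _ h1
  exact key w hw v

theorem pf_CHT (hS : T_SGE) : T_CHT := by
  intro M al σ hN hσ i j w x hij hw hxi hxj hwx
  obtain ⟨hL, -, hdesc⟩ := hS M al σ hN hσ
  by_contra hne
  have hne' : w⁻¹ ≠ 1 := fun h => hne (inv_eq_one.1 h)
  obtain ⟨l, hl⟩ := M.toCoxeterSystem.exists_rightDescent_of_ne_one hne'
  obtain ⟨c, hc, hcs⟩ := hdesc w⁻¹ l hl
  have hw' : w⁻¹ ∈ Subgroup.closure {ss M i, ss M j} := inv_mem hw
  have h1 := sub_mem_span hσ hw' (al l)
  obtain ⟨p, q, hpq⟩ := Submodule.mem_span_pair.1 h1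
  have hli := Fintype.linearIndependent_iff.1 hN.li
  -- the coefficients
  have h2 := hli (fun t => c t - (if t = l then 1 else 0) - (if t = i then p else 0) -
    (if t = j then q else 0)) (by
      simp only [sub_smul, Finset.sum_sub_distrib, ite_smul, one_smul, zero_smul,
        Finset.sum_ite_eq', Finset.mem_univ, if_true]
      rw [← hcs]
      have h3 : σ w⁻¹ (al l) - al l - (p • al i + q • al j) = 0 := by
        rw [hpq, sub_self]
      rw [← h3]
      abel)
  by_cases hlij : l = i ∨ l = j
  · have h4 : mk x (σ w⁻¹ (al l)) = mk x (al l) := by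
      have h5 := (hL w).1 x (σ w⁻¹ (al l))
      rw [hwx] at h5
      have h6 : σ w (σ w⁻¹ (al l)) = al l := by
        have h7 : (σ w * σ w⁻¹) (al l) = al l := by
          rw [← map_mul, mul_inv_cancel, map_one]
          rfl
        exact h7
      rw [h6] at h5
      exact h5.symm
    have h5 : mk x (al l) < 0 := by
      rcases hlij with rfl | rfl
      · exact hxi
      · exact hxj
    have h6 : 0 ≤ mk x (σ w⁻¹ (al l)) := by
      rw [hcs, mk_sum_right]
      refine Finset.sum_nonneg fun t _ => ?_
      rw [mk_smul_right]
      by_cases hti : t = i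
      · subst hti
        nlinarith [hc t]
      by_cases htj : t = j
      · subst htj
        nlinarith [hc t]
      have h7 := h2 t
      have htl : t ≠ l := by
        rintro rfl
        rcases hlij with h | h
        · exact hti h
        · exact htj h
      simp only [if_neg hti, if_neg htj, if_neg htl, sub_zero] at h7
      rw [h7, zero_mul]
    linarith
  · push Not at hlij
    have h7 := h2 l
    simp only [if_neg hlij.1, if_neg hlij.2, if_true, sub_zero] at h7
    linarith [hc l]

end Pool.Agent.H1.TOH
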