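import Pool.Agent.H39.TO.Targets

set_option autoImplicit false

namespace Pool.Agent.H1.TOH

open Pool.Agent.H57.CP Pool.Agent.H39.TO

theorem vts_image (g : Equiv.Perm H3) (f : Set (Set H3)) :
    vts ((Set.image g) '' f) = g '' vts f := by
  ext x
  constructor
  · rintro ⟨_, ⟨e', he', rfl⟩, ⟨y, hy, rfl⟩⟩
    exact ⟨y, ⟨e', he', hy⟩, rfl⟩
  · rintro ⟨y, ⟨e', he', hy⟩, rfl⟩
    exact ⟨g '' e', ⟨e', he', rfl⟩, ⟨y, hy, rfl⟩⟩

theorem eds_image {K : Geo} {g : Equiv.Perm H3} (h : Sy K g) (x : H3) :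
    eds K (g x) = (Set.image g) '' eds K x := by
  ext e
  constructor
  · rintro ⟨h1, h2⟩
    have h3 : g '' (g.symm '' e) = e := g.image_symm_image e
    refine ⟨g.symm '' e, ⟨?_, ?_⟩, h3⟩
    · rw [← h.e, h3]
      exact h1
    · exact ⟨g x, h2, g.symm_apply_apply x⟩
  · rintro ⟨e', ⟨h1, h2⟩, rfl⟩
    exact ⟨(h.e e').2 h1, ⟨x, h2, rfl⟩⟩

theorem pf_EQV (hS : T_SYG) : T_EQV := by
  intro K
  obtain ⟨h1, hmul, hinv, hact, hone⟩ := hS K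
  refine ⟨fun Φ => ⟨1, h1, hone Φ⟩, ?_, ?_, ?_⟩
  · rintro Φ _ ⟨g, hg, rfl⟩
    refine ⟨g⁻¹, hinv g hg, ?_⟩
    rw [← hact, inv_mul_cancel, hone]
  · rintro Φ _ _ ⟨g, hg, rfl⟩ ⟨g', hg', rfl⟩
    exact ⟨g' * g, hmul g' g hg' hg, hact g' g Φ⟩
  · rintro Φ _ ⟨g, hg, rfl⟩
    constructor
    · change (vts Φ.2.2).encard = (vts ((Set.image g) '' Φ.2.2)).encard
      rw [vts_image, g.injective.encard_image]
    · change (eds K Φ.1).encard = (eds K (g Φ.1)).encard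
      rw [eds_image hg, (Set.image_injective.2 g.injective).encard_image]

end Pool.Agent.H1.TOH
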