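import Pool.Agent.H39.TO.Targets

set_option autoImplicit false

namespace Pool.Agent.H1.TOH.Inv

open Pool.Agent.H57.CP Pool.Agent.H39.TO

theorem mk_add_left (x y z : V4) : mk (x + y) z = mk x z + mk y z := by
  simp only [mk, Pi.add_apply]
  ring

theorem mk_smul_left (x y : V4) (c : ℝ) : mk (c • x) y = c * mk x y := by
  simp only [mk, Pi.smul_apply, smul_eq_mul]
  ring

theorem mk_symm (x y : V4) : mk x y = mk y x := by
  simp only [mk]
  ring

theorem mk_zero_left (x : V4) : mk 0 x = 0 := by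
  simp [mk]

theorem refl_apply' (a x : V4) : refl a x = x + (2 * mk a x) • a := by
  ext i
  rfl

/-- the vector product of three vectors -/
def cro (c u n : V4) : V4 :=
  ![c 1 * (u 2 * n 3 - u 3 * n 2) - c 2 * (u 1 * n 3 - u 3 * n 1) + c 3 * (u 1 * n 2 - u 2 * n 1),
    -(c 0 * (u 2 * n 3 - u 3 * n 2) - c 2 * (u 0 * n 3 - u 3 * n 0) + c 3 * (u 0 * n 2 - u 2 * n 0)),
    c 0 * (u 1 * n 3 - u 3 * n 1) - c 1 * (u 0 * n 3 - u 3 * n 0) + c 3 * (u 0 * n 1 - u 1 * n 0),
    c 0 * (u 1 * n 2 - u 2 * n 1) - c 1 * (u 0 * n 2 - u 2 * n 0) + c 2 * (u 0 * n 1 - u 1 * n 0)]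

theorem cro_c (c u n : V4) : mk (cro c u n) c = 0 := by
  simp only [mk, cro, Matrix.cons_val]
  ring

theorem cro_u (c u n : V4) : mk (cro c u n) u = 0 := by
  simp only [mk, cro, Matrix.cons_val]
  ring

theorem cro_n (c u n : V4) : mk (cro c u n) n = 0 := by
  simp only [mk, cro, Matrix.cons_val]
  ring

theorem cro_sq (c u n : V4) : mk (cro c u n) (cro c u n) =
    -(mk c c * (mk u u * mk n n - mk u n * mk u n) - mk c u * (mk c u * mk n n - mk u n * mk c n) +
      mk c n * (mk c u * mk u n - mk u u * mk c n)) := by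
  simp only [mk, cro, Matrix.cons_val]
  ring

theorem exists_m {c u n : V4} (hcc : 0 < mk c c) (huu : mk u u = -1) (hcu : mk c u = 0)
    (hnn : mk n n = -1) (hnc : mk n c = 0) (hnu : mk n u = 0) :
    ∃ m : V4, mk m m = -1 ∧ mk m c = 0 ∧ mk m u = 0 ∧ mk m n = 0 := by
  have hs : 0 < √(mk c c) := Real.sqrt_pos.2 hcc
  have hs2 : √(mk c c) * √(mk c c) = mk c c := Real.mul_self_sqrt hcc.le
  refine ⟨(1 / √(mk c c)) • cro c u n, ?_, ?_, ?_, ?_⟩
  · rw [mk_smul_left, mk_symm (cro c u n), mk_smul_left, cro_sq, mk_symm u n, mk_symm c n, hnc,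
      hnu, hcu, hnn, huu]
    have h1 : 1 / √(mk c c) * (1 / √(mk c c)) * (√(mk c c) * √(mk c c)) = 1 := by
      field_simp
    rw [hs2] at h1
    linear_combination (-1) * h1
  · rw [mk_smul_left, cro_c, mul_zero]
  · rw [mk_smul_left, cro_u, mul_zero]
  · rw [mk_smul_left, cro_n, mul_zero]

theorem pf_INV : T_INV := by
  intro D c u n hD hdet hc hu hcc huu hcu hnn hnc hnu
  obtain ⟨m, hmm, hmc, hmu, hmn⟩ := exists_m hcc huu hcu hnn hnc hnu
  have huc : mk u c = 0 := by rw [mk_symm]; exact hcu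
  have hcn : mk c n = 0 := by rw [mk_symm]; exact hnc
  have hun : mk u n = 0 := by rw [mk_symm]; exact hnu
  have hcm : mk c m = 0 := by rw [mk_symm]; exact hmc
  have hum : mk u m = 0 := by rw [mk_symm]; exact hmu
  have hnm : mk n m = 0 := by rw [mk_symm]; exact hmn
  -- values of the product with a combination
  have e1 : ∀ a b x y : ℝ, mk (a • c + b • u + x • n + y • m) c = a * mk c c := by
    intro a b x y
    simp only [mk_add_left, mk_smul_left, huc, hnc, hmc]
    ring
  have e2 : ∀ a b x y : ℝ, mk (a • c + b • u + x • n + y • m) u = -b := by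
    intro a b x y
    simp only [mk_add_left, mk_smul_left, hcu, hnu, hmu, huu]
    ring
  have e3 : ∀ a b x y : ℝ, mk (a • c + b • u + x • n + y • m) n = -x := by
    intro a b x y
    simp only [mk_add_left, mk_smul_left, hcn, hun, hmn, hnn]
    ring
  have e4 : ∀ a b x y : ℝ, mk (a • c + b • u + x • n + y • m) m = -y := by
    intro a b x y
    simp only [mk_add_left, mk_smul_left, hcm, hum, hnm, hmm]
    ring
  have hli : LinearIndependent ℝ ![c, u, n, m] := by
    rw [Fintype.linearIndependent_iff]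
    intro g hg
    simp only [Fin.sum_univ_four, Matrix.cons_val] at hg
    have f1 := e1 (g 0) (g 1) (g 2) (g 3)
    have f2 := e2 (g 0) (g 1) (g 2) (g 3)
    have f3 := e3 (g 0) (g 1) (g 2) (g 3)
    have f4 := e4 (g 0) (g 1) (g 2) (g 3)
    rw [hg, mk_zero_left] at f1 f2 f3 f4
    intro i
    fin_cases i
    · rcases mul_eq_zero.1 f1.symm with h | h
      · exact h
      · exact absurd h hcc.ne'
    · change g 1 = 0
      linarith
    · change g 2 = 0
      linarith
    · change g 3 = 0
      linarith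
  let b : Module.Basis (Fin 4) ℝ V4 := basisOfLinearIndependentOfCardEqFinrank hli (by simp)
  have hb : ∀ i, b i = ![c, u, n, m] i := fun i => by
    rw [coe_basisOfLinearIndependentOfCardEqFinrank]
  have hdec : ∀ v : V4, ∃ a b' x y : ℝ, v = a • c + b' • u + x • n + y • m := by
    intro v
    refine ⟨b.repr v 0, b.repr v 1, b.repr v 2, b.repr v 3, ?_⟩
    have h1 := b.sum_repr v
    rw [Fin.sum_univ_four, hb, hb, hb, hb] at h1
    simpa using h1.symm
  -- D n and D m
  have hDn : ∃ x y : ℝ, D n = x • n + y • m := by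
    obtain ⟨a, b', x, y, h⟩ := hdec (D n)
    have h1 : mk (D n) c = 0 := by
      rw [← hc, hD.1, hnc]
    have h2 : mk (D n) u = 0 := by
      rw [← hu, hD.1, hnu]
    rw [h, e1] at h1
    rw [h, e2] at h2
    have ha : a = 0 := by
      rcases mul_eq_zero.1 h1 with h3 | h3
      · exact h3
      · exact absurd h3 hcc.ne'
    have hb' : b' = 0 := by linarith
    refine ⟨x, y, ?_⟩
    rw [h, ha, hb', zero_smul, zero_smul, zero_add, zero_add]
  have hDm : ∃ z w : ℝ, D m = z • n + w • m := by
    obtain ⟨a, b', x, y, h⟩ := hdec (D m)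
    have h1 : mk (D m) c = 0 := by
      rw [← hc, hD.1, hmc]
    have h2 : mk (D m) u = 0 := by
      rw [← hu, hD.1, hmu]
    rw [h, e1] at h1
    rw [h, e2] at h2
    have ha : a = 0 := by
      rcases mul_eq_zero.1 h1 with h3 | h3
      · exact h3
      · exact absurd h3 hcc.ne'
    have hb' : b' = 0 := by linarith
    refine ⟨x, y, ?_⟩
    rw [h, ha, hb', zero_smul, zero_smul, zero_add, zero_add]
  obtain ⟨x, y, hn1⟩ := hDn
  obtain ⟨z, w, hm1⟩ := hDm
  have g1 : x ^ 2 + y ^ 2 = 1 := by
    have h1 := hD.1 n n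
    rw [hn1, hnn] at h1
    simp only [mk_add_left, mk_smul_left] at h1
    rw [mk_symm n, mk_symm m] at h1
    simp only [mk_add_left, mk_smul_left, hnn, hmm, hmn, hnm] at h1
    linarith
  have g2 : z ^ 2 + w ^ 2 = 1 := by
    have h1 := hD.1 m m
    rw [hm1, hmm] at h1
    simp only [mk_add_left, mk_smul_left] at h1
    rw [mk_symm n, mk_symm m] at h1
    simp only [mk_add_left, mk_smul_left, hnn, hmm, hmn, hnm] at h1
    linarith
  have hDmat : D = Matrix.toLin b b !![1, 0, 0, 0; 0, 1, 0, 0; 0, 0, x, z; 0, 0, y, w] := by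
    refine b.ext fun j => ?_
    rw [Matrix.toLin_self, Fin.sum_univ_four, hb, hb, hb, hb, hb]
    fin_cases j
    · simp [hc]
    · simp [hu]
    · simp [hn1]
    · simp [hm1]
  have g3 : x * w - z * y = 1 := by
    rw [hDmat, LinearMap.det_toLin] at hdet
    rw [← hdet]
    simp [Matrix.det_succ_row_zero, Fin.sum_univ_succ]
    ring
  have g4 : w = x ∧ z = -y := by
    have h1 : (w - x) ^ 2 + (z + y) ^ 2 = 0 := by nlinarith
    have h2 : (w - x) ^ 2 = 0 := by nlinarith [sq_nonneg (w - x), sq_nonneg (z + y)]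
    have h3 : (z + y) ^ 2 = 0 := by nlinarith [sq_nonneg (w - x), sq_nonneg (z + y)]
    have h4 := pow_eq_zero_iff (two_ne_zero) |>.1 h2
    have h5 := pow_eq_zero_iff (two_ne_zero) |>.1 h3
    constructor <;> linarith
  obtain ⟨rfl, rfl⟩ := g4
  have r1 : refl n c = c := by
    rw [refl_apply', hnc, mul_zero, zero_smul, add_zero]
  have r2 : refl n u = u := by
    rw [refl_apply', hnu, mul_zero, zero_smul, add_zero]
  have r3 : refl n n = -n := by
    rw [refl_apply', hnn]
    module
  have r4 : refl n m = m := by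
    rw [refl_apply', hnm, mul_zero, zero_smul, add_zero]
  refine b.ext fun j => ?_
  change D (refl n (D (b j))) = refl n (b j)
  rw [hb]
  fin_cases j
  · change D (refl n (D c)) = refl n c
    rw [hc, r1, hc]
  · change D (refl n (D u)) = refl n u
    rw [hu, r2, hu]
  · change D (refl n (D n)) = refl n n
    rw [hn1, map_add, map_smul, map_smul, r3, r4, map_add, map_smul, map_smul, map_neg, hn1, hm1]
    have h1 : (w • -(w • n + y • m) + y • (-y • n + w • m) : V4) =
        (-(w ^ 2 + y ^ 2)) • n := by module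
    rw [h1, g1]
    module
  · change D (refl n (D m)) = refl n m
    rw [hm1, map_add, map_smul, map_smul, r3, r4, map_add, map_smul, map_smul, map_neg, hn1, hm1]
    have h1 : (-y • -(w • n + y • m) + w • (-y • n + w • m) : V4) =
        (w ^ 2 + y ^ 2) • m := by module
    rw [h1, g1]
    module

end Pool.Agent.H1.TOH.Inv
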