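import Pool.Agent.H39.TO.Targets

set_option autoImplicit false

namespace Pool.Agent.H1.TOH.Spb

open Pool.Agent.H57.CP Pool.Agent.H39.TO

theorem mk_add_left (x y z : V4) : mk (x + y) z = mk x z + mk y z := by
  simp only [mk, Pi.add_apply]
  ring

theorem mk_smul_left (x y : V4) (c : ℝ) : mk (c • x) y = c * mk x y := by
  simp only [mk, Pi.smul_apply, smul_eq_mul]
  ring

theorem mk_add_right (x y z : V4) : mk x (y + z) = mk x y + mk x z := by
  simp only [mk, Pi.add_apply]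
  ring

theorem mk_smul_right (x y : V4) (c : ℝ) : mk x (c • y) = c * mk x y := by
  simp only [mk, Pi.smul_apply, smul_eq_mul]
  ring

theorem mk_symm (x y : V4) : mk x y = mk y x := by
  simp only [mk]
  ring

theorem refl_apply' (a x : V4) : refl a x = x + (2 * mk a x) • a := by
  ext i
  rfl

theorem refl_apply_i (a x : V4) (i : Fin 4) : refl a x i = x i + 2 * mk a x * a i := rfl

/-- the vector product -/
def cr (x y : V4) : V4 := ![x 1 * y 2 - x 2 * y 1, x 2 * y 0 - x 0 * y 2, x 0 * y 1 - x 1 * y 0, 0]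

theorem cr_0 (x y : V4) : cr x y 0 = x 1 * y 2 - x 2 * y 1 := rfl
theorem cr_1 (x y : V4) : cr x y 1 = x 2 * y 0 - x 0 * y 2 := rfl
theorem cr_2 (x y : V4) : cr x y 2 = x 0 * y 1 - x 1 * y 0 := rfl
theorem cr_3 (x y : V4) : cr x y 3 = 0 := rfl

/-- a unit vector of the space -/
def Un (n : V4) : Prop := n 3 = 0 ∧ mk n n = -1

theorem refl_3 {n : V4} (hn : Un n) (x : V4) : refl n x 3 = x 3 := by
  rw [refl_apply_i, hn.1, mul_zero, add_zero]

theorem refl_refl {n : V4} (hn : Un n) (x : V4) : refl n (refl n x) = x := by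
  rw [refl_apply' n (refl n x), refl_apply' n x, mk_add_right, mk_smul_right, hn.2]
  module

theorem mk_refl (n x y : V4) : mk x (refl n y) = mk (refl n x) y := by
  rw [refl_apply', refl_apply', mk_add_right, mk_smul_right, mk_add_left, mk_smul_left, mk_symm x n]
  ring

theorem refl_cr {n : V4} (hn : Un n) (u v : V4) :
    refl n (cr u v) = -cr (refl n u) (refl n v) := by
  obtain ⟨h3, h1⟩ := hn
  simp only [mk, h3] at h1
  have hu : mk n u = -(n 0 * u 0) - n 1 * u 1 - n 2 * u 2 := by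
    simp only [mk, h3]
    ring
  have hv : mk n v = -(n 0 * v 0) - n 1 * v 1 - n 2 * v 2 := by
    simp only [mk, h3]
    ring
  have hc : mk n (cr u v) = -(n 0 * (u 1 * v 2 - u 2 * v 1)) - n 1 * (u 2 * v 0 - u 0 * v 2) -
      n 2 * (u 0 * v 1 - u 1 * v 0) := by
    simp only [mk, h3, cr_0, cr_1, cr_2]
    ring
  ext i
  fin_cases i
  · change refl n (cr u v) 0 = -(cr (refl n u) (refl n v) 0)
    simp only [cr_0, refl_apply_i, hu, hv, hc]
    linear_combination (2 * (u 1 * v 2 - u 2 * v 1)) * h1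
  · change refl n (cr u v) 1 = -(cr (refl n u) (refl n v) 1)
    simp only [cr_1, refl_apply_i, hu, hv, hc]
    linear_combination (2 * (u 2 * v 0 - u 0 * v 2)) * h1
  · change refl n (cr u v) 2 = -(cr (refl n u) (refl n v) 2)
    simp only [cr_2, refl_apply_i, hu, hv, hc]
    linear_combination (2 * (u 0 * v 1 - u 1 * v 0)) * h1
  · change refl n (cr u v) 3 = -(cr (refl n u) (refl n v) 3)
    rw [cr_3, refl_apply_i, h3, cr_3, mul_zero, add_zero, neg_zero]

/-- the rotation about `x` -/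
def Ro (c s : ℝ) (x y : V4) : V4 := c • y + (-((1 - c) * mk x y)) • x + s • cr x y

/-- both rotations about `x` belong to the group -/
def Q (G : Submonoid (Module.End ℝ V4)) (c s : ℝ) (x : V4) : Prop :=
  Un x ∧ (∃ A ∈ G, ∀ y : V4, y 3 = 0 → A y = Ro c s x y) ∧
    ∃ B ∈ G, ∀ y : V4, y 3 = 0 → B y = Ro c (-s) x y

theorem refl_Ro {n : V4} (hn : Un n) (c s : ℝ) (x y : V4) :
    refl n (Ro c s x (refl n y)) = Ro c (-s) (refl n x) y := by
  unfold Ro
  rw [map_add, map_add, map_smul, map_smul, map_smul, refl_refl hn, refl_cr hn, refl_refl hn,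
    mk_refl]
  module

theorem Un_refl {n x : V4} (hn : Un n) (hx : Un x) : Un (refl n x) := by
  refine ⟨by rw [refl_3 hn, hx.1], ?_⟩
  rw [mk_refl, refl_refl hn, hx.2]

theorem Q_refl {G : Submonoid (Module.End ℝ V4)} {c s : ℝ} {n x : V4} (hn : Un n)
    (hG : refl n ∈ G) (hx : Q G c s x) : Q G c s (refl n x) := by
  obtain ⟨h1, ⟨A, hA, hA'⟩, ⟨B, hB, hB'⟩⟩ := hx
  refine ⟨Un_refl hn h1, ⟨refl n * B * refl n, mul_mem (mul_mem hG hB) hG, fun y hy => ?_⟩,
    ⟨refl n * A * refl n, mul_mem (mul_mem hG hA) hG, fun y hy => ?_⟩⟩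
  · change refl n (B (refl n y)) = _
    rw [hB' _ (by rw [refl_3 hn, hy]), refl_Ro hn, neg_neg]
  · change refl n (A (refl n y)) = _
    rw [hA' _ (by rw [refl_3 hn, hy]), refl_Ro hn]

theorem mk_cr_left {x y : V4} : mk (cr x y) x = 0 := by
  simp only [mk, cr_0, cr_1, cr_2, cr_3]
  ring

theorem mk_cr_right {x y : V4} : mk (cr x y) y = 0 := by
  simp only [mk, cr_0, cr_1, cr_2, cr_3]
  ring

theorem mk_cr_cr {x y : V4} (hx : x 3 = 0) (hy : y 3 = 0) :
    mk (cr x y) (cr x y) = (mk x y) ^ 2 - mk x x * mk y y := by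
  simp only [mk, cr_0, cr_1, cr_2, cr_3, hx, hy]
  ring

theorem cr_swap (x y : V4) : cr y x = -cr x y := by
  ext i
  fin_cases i
  · change cr y x 0 = -(cr x y 0)
    rw [cr_0, cr_0]
    ring
  · change cr y x 1 = -(cr x y 1)
    rw [cr_1, cr_1]
    ring
  · change cr y x 2 = -(cr x y 2)
    rw [cr_2, cr_2]
    ring
  · change cr y x 3 = -(cr x y 3)
    rw [cr_3, cr_3, neg_zero]

/-- the first product -/
theorem first {c s : ℝ} {x y : V4} (hy : Un y) :
    -mk y (Ro c s x y) = c + (1 - c) * (-mk x y) ^ 2 := by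
  unfold Ro
  rw [mk_add_right, mk_add_right, mk_smul_right, mk_smul_right, mk_smul_right, hy.2,
    mk_symm y (cr x y), mk_cr_right, mk_symm y x]
  ring

/-- the second product -/
theorem second {c s : ℝ} (hcs : s ^ 2 = 1 - c ^ 2) {x y : V4} (hx : Un x) (hy : Un y) :
    -mk (Ro c (-s) y x) (Ro c s x y) = 1 + (-mk x y - 1) * ((1 - c) * (-mk x y) - c) ^ 2 := by
  unfold Ro
  rw [cr_swap x y]
  have h1 : mk (cr x y) x = 0 := mk_cr_left
  have h2 : mk (cr x y) y = 0 := mk_cr_right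
  have h3 : mk x (cr x y) = 0 := by rw [mk_symm]; exact h1
  have h4 : mk y (cr x y) = 0 := by rw [mk_symm]; exact h2
  have h5 := mk_cr_cr hx.1 hy.1
  rw [hx.2, hy.2] at h5
  have h6 : (-s) • -cr x y = s • cr x y := by module
  rw [h6]
  simp only [mk_add_left, mk_add_right, mk_smul_left, mk_smul_right, h1, h2, h3, h4, h5, hx.2, hy.2,
    mk_symm y x]
  linear_combination (1 - (mk x y) ^ 2) * hcs

section

variable {p : ℕ} {C : ℝ}

theorem mem_n : refl nM ∈ Gam nM (tM p) (sM p C) := Submonoid.subset_closure (Or.inl rfl)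
theorem mem_t : refl (tM p) ∈ Gam nM (tM p) (sM p C) :=
  Submonoid.subset_closure (Or.inr (Or.inl rfl))
theorem mem_s : refl (sM p C) ∈ Gam nM (tM p) (sM p C) :=
  Submonoid.subset_closure (Or.inr (Or.inr rfl))

theorem un_n : Un nM := ⟨rfl, by simp [mk, nM]⟩

theorem un_t : Un (tM p) := by
  refine ⟨rfl, ?_⟩
  simp only [mk, tM, Matrix.cons_val]
  linear_combination (-1) * Real.sin_sq_add_cos_sq (Real.pi / p)

theorem un_s (hC : 0 ≤ 1 - C ^ 2) : Un (sM p C) := by
  refine ⟨rfl, ?_⟩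
  have h := Real.sq_sqrt hC
  simp only [mk, sM, Matrix.cons_val]
  linear_combination (-1) * Real.sin_sq_add_cos_sq (Real.pi / p) - Real.sin (Real.pi / p) ^ 2 * h

theorem cos2 : Real.cos (2 * Real.pi / p) = 2 * Real.cos (Real.pi / p) ^ 2 - 1 := by
  rw [← Real.cos_two_mul]
  congr 1
  ring

theorem sin2 : Real.sin (2 * Real.pi / p) = 2 * Real.sin (Real.pi / p) * Real.cos (Real.pi / p) := by
  rw [← Real.sin_two_mul]
  congr 1
  ring

theorem un_e2 : Un e2 := ⟨rfl, by simp [mk, e2]⟩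

theorem un_aS (hC : 0 ≤ 1 - C ^ 2) : Un (aS C) := by
  refine ⟨rfl, ?_⟩
  have h := Real.sq_sqrt hC
  simp only [mk, aS, Matrix.cons_val]
  linear_combination (-1) * h

theorem Ro_i (c s : ℝ) (x y : V4) (i : Fin 4) :
    Ro c s x y i = c * y i + -((1 - c) * mk x y) * x i + s * cr x y i := rfl

theorem rot_gen {S K C r : ℝ} (h : S ^ 2 + K ^ 2 = 1) (hr : r ^ 2 + C ^ 2 = 1) {t b : V4}
    (t0 : t 0 = -(S * C)) (t1 : t 1 = -K) (t2 : t 2 = S * r) (t3 : t 3 = 0) (b0 : b 0 = r)
    (b1 : b 1 = 0) (b2 : b 2 = C) (b3 : b 3 = 0) (y : V4) (hy : y 3 = 0) :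
    refl nM (refl t y) = Ro (2 * K ^ 2 - 1) (2 * S * K) b y := by
  have n0 : nM 0 = 0 := rfl
  have n1 : nM 1 = 1 := rfl
  have n2 : nM 2 = 0 := rfl
  have n3 : nM 3 = 0 := rfl
  ext i
  fin_cases i
  · change refl nM (refl t y) 0 = Ro (2 * K ^ 2 - 1) (2 * S * K) b y 0
    simp only [Ro_i, refl_apply_i, mk, n0, n1, n2, n3, t0, t1, t2, t3, b0, b1, b2, b3, cr_0, hy]
    grind
  · change refl nM (refl t y) 1 = Ro (2 * K ^ 2 - 1) (2 * S * K) b y 1
    simp only [Ro_i, refl_apply_i, mk, n0, n1, n2, n3, t0, t1, t2, t3, b0, b1, b2, b3, cr_1, hy]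
    grind
  · change refl nM (refl t y) 2 = Ro (2 * K ^ 2 - 1) (2 * S * K) b y 2
    simp only [Ro_i, refl_apply_i, mk, n0, n1, n2, n3, t0, t1, t2, t3, b0, b1, b2, b3, cr_2, hy]
    grind
  · change refl nM (refl t y) 3 = Ro (2 * K ^ 2 - 1) (2 * S * K) b y 3
    simp only [Ro_i, refl_apply_i, mk, n0, n1, n2, n3, t0, t1, t2, t3, b0, b1, b2, b3, cr_3, hy]
    grind

theorem Ro_neg (c s : ℝ) (x y : V4) : Ro c s (-x) y = Ro c (-s) x y := by
  ext i
  have h1 : mk (-x) y = -mk x y := by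
    simp only [mk, Pi.neg_apply]
    ring
  have h2 : cr (-x) y = -cr x y := by
    ext j
    fin_cases j
    · change cr (-x) y 0 = -(cr x y 0)
      simp only [cr_0, Pi.neg_apply]
      ring
    · change cr (-x) y 1 = -(cr x y 1)
      simp only [cr_1, Pi.neg_apply]
      ring
    · change cr (-x) y 2 = -(cr x y 2)
      simp only [cr_2, Pi.neg_apply]
      ring
    · change cr (-x) y 3 = -(cr x y 3)
      simp only [cr_3, neg_zero]
  simp only [Ro_i, h1, h2, Pi.neg_apply]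
  ring

theorem refl_inv {G : Submonoid (Module.End ℝ V4)} {c s : ℝ} {m n x : V4} (hm : Un m) (hn : Un n)
    (hx : Un x) (h : ∀ y : V4, y 3 = 0 → refl m (refl n y) = Ro c s x y) (hcs : s ^ 2 = 1 - c ^ 2) :
    ∀ y : V4, y 3 = 0 → refl n (refl m y) = Ro c (-s) x y := by
  intro y hy
  have h3 : (Ro c (-s) x y) 3 = 0 := by
    rw [Ro_i, hy, hx.1, cr_3]
    ring
  have h1 := h (Ro c (-s) x y) h3
  have h2 : Ro c s x (Ro c (-s) x y) = y := by
    unfold Ro
    have hxx : cr x x = 0 := by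
      ext j
      fin_cases j
      · change cr x x 0 = 0
        rw [cr_0]
        ring
      · change cr x x 1 = 0
        rw [cr_1]
        ring
      · change cr x x 2 = 0
        rw [cr_2]
        ring
      · rfl
    have hcadd : ∀ u v w : V4, cr u (v + w) = cr u v + cr u w := by
      intro u v w
      ext j
      fin_cases j
      · change cr u (v + w) 0 = cr u v 0 + cr u w 0
        simp only [cr_0, Pi.add_apply]
        ring
      · change cr u (v + w) 1 = cr u v 1 + cr u w 1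
        simp only [cr_1, Pi.add_apply]
        ring
      · change cr u (v + w) 2 = cr u v 2 + cr u w 2
        simp only [cr_2, Pi.add_apply]
        ring
      · change cr u (v + w) 3 = cr u v 3 + cr u w 3
        simp only [cr_3, add_zero]
    have hcsm : ∀ (a : ℝ) (u v : V4), cr u (a • v) = a • cr u v := by
      intro a u v
      ext j
      fin_cases j
      · change cr u (a • v) 0 = a * cr u v 0
        simp only [cr_0, Pi.smul_apply, smul_eq_mul]
        ring
      · change cr u (a • v) 1 = a * cr u v 1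
        simp only [cr_1, Pi.smul_apply, smul_eq_mul]
        ring
      · change cr u (a • v) 2 = a * cr u v 2
        simp only [cr_2, Pi.smul_apply, smul_eq_mul]
        ring
      · change cr u (a • v) 3 = a * cr u v 3
        simp only [cr_3, mul_zero]
    have hxc : mk x (cr x y) = 0 := by rw [mk_symm]; exact mk_cr_left
    -- the double vector product
    have hdd : cr x (cr x y) = (-(mk x y)) • x + (-1 : ℝ) • y := by
      have hx2 := hx.2
      simp only [mk, hx.1] at hx2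
      ext j
      fin_cases j
      · change cr x (cr x y) 0 = -(mk x y) * x 0 + (-1) * y 0
        simp only [cr_0, cr_1, cr_2, mk, hy, hx.1]
        linear_combination (y 0) * hx2
      · change cr x (cr x y) 1 = -(mk x y) * x 1 + (-1) * y 1
        simp only [cr_0, cr_1, cr_2, mk, hy, hx.1]
        linear_combination (y 1) * hx2
      · change cr x (cr x y) 2 = -(mk x y) * x 2 + (-1) * y 2
        simp only [cr_0, cr_1, cr_2, mk, hy, hx.1]
        linear_combination (y 2) * hx2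
      · change cr x (cr x y) 3 = -(mk x y) * x 3 + (-1) * y 3
        rw [cr_3, hx.1, hy]
        ring
    simp only [hcadd, hcsm, hxx, hdd, mk_add_right, mk_smul_right, hx.2, hxc, smul_zero, add_zero]
    have hs2 : s ^ 2 = 1 - c ^ 2 := hcs
    match_scalars
    · linear_combination (1 : ℝ) * hs2
    · linear_combination (mk x y) * hs2
    · ring
  rw [h2] at h1
  have h4 : refl n (refl m y) = refl n (refl m (refl m (refl n (Ro c (-s) x y)))) := by rw [h1]
  rw [h4, refl_refl hm, refl_refl hn]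

theorem Q_e2 : Q (Gam nM (tM p) (sM p C)) (Real.cos (2 * Real.pi / p))
    (Real.sin (2 * Real.pi / p)) e2 := by
  have h := Real.sin_sq_add_cos_sq (Real.pi / p)
  have hcs : Real.sin (2 * Real.pi / p) ^ 2 = 1 - Real.cos (2 * Real.pi / p) ^ 2 := by
    have := Real.sin_sq_add_cos_sq (2 * Real.pi / p)
    linarith
  have h1 : ∀ y : V4, y 3 = 0 → refl nM (refl (tM p) y) =
      Ro (Real.cos (2 * Real.pi / p)) (-Real.sin (2 * Real.pi / p)) e2 y := by
    intro y hy
    rw [← Ro_neg, cos2, sin2]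
    refine rot_gen (C := -1) (r := 0) h (by norm_num) ?_ ?_ ?_ ?_ ?_ ?_ ?_ ?_ y hy
    · simp [tM]
    · simp [tM]
    · simp [tM]
    · simp [tM]
    · simp [e2]
    · simp [e2]
    · simp [e2]
    · simp [e2]
  refine ⟨un_e2, ⟨refl (tM p) * refl nM, mul_mem mem_t mem_n, fun y hy => ?_⟩,
    ⟨refl nM * refl (tM p), mul_mem mem_n mem_t, h1⟩⟩
  have h2 := refl_inv (G := ⊤) un_n un_t un_e2 h1 (by rw [neg_sq]; exact hcs) y hy
  rw [neg_neg] at h2
  exact h2

theorem Q_aS (hC : 0 ≤ 1 - C ^ 2) : Q (Gam nM (tM p) (sM p C)) (Real.cos (2 * Real.pi / p))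
    (Real.sin (2 * Real.pi / p)) (aS C) := by
  have h := Real.sin_sq_add_cos_sq (Real.pi / p)
  have hcs : Real.sin (2 * Real.pi / p) ^ 2 = 1 - Real.cos (2 * Real.pi / p) ^ 2 := by
    have := Real.sin_sq_add_cos_sq (2 * Real.pi / p)
    linarith
  have hr : Real.sqrt (1 - C ^ 2) ^ 2 + C ^ 2 = 1 := by
    rw [Real.sq_sqrt hC]
    ring
  have h1 : ∀ y : V4, y 3 = 0 → refl nM (refl (sM p C) y) =
      Ro (Real.cos (2 * Real.pi / p)) (Real.sin (2 * Real.pi / p)) (aS C) y := by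
    intro y hy
    rw [cos2, sin2]
    exact rot_gen (C := C) (r := Real.sqrt (1 - C ^ 2)) h hr rfl rfl rfl rfl rfl rfl rfl rfl y hy
  exact ⟨un_aS hC, ⟨refl nM * refl (sM p C), mul_mem mem_n mem_s, h1⟩,
    ⟨refl (sM p C) * refl nM, mul_mem mem_s mem_n,
      refl_inv (G := ⊤) un_n (un_s hC) (un_aS hC) h1 hcs⟩⟩

theorem Q_Gam (hC : 0 ≤ 1 - C ^ 2) {c s : ℝ} {g : Module.End ℝ V4}
    (hg : g ∈ Gam nM (tM p) (sM p C)) :
    ∀ x : V4, Q (Gam nM (tM p) (sM p C)) c s x → Q (Gam nM (tM p) (sM p C)) c s (g x) := by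
  induction hg using Submonoid.closure_induction with
  | mem g hg =>
    intro x hx
    rcases hg with rfl | rfl | rfl
    · exact Q_refl un_n mem_n hx
    · exact Q_refl un_t mem_t hx
    · exact Q_refl (un_s hC) mem_s hx
  | one =>
    intro x hx
    exact hx
  | mul g g' _ _ hg hg' =>
    intro x hx
    exact hg _ (hg' _ hx)

theorem Q_PS (hC : 0 ≤ 1 - C ^ 2) {x : V4} (hx : x ∈ PS p C) :
    Q (Gam nM (tM p) (sM p C)) (Real.cos (2 * Real.pi / p)) (Real.sin (2 * Real.pi / p)) x := by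
  obtain ⟨g, hg, rfl | rfl⟩ := hx
  · exact Q_Gam hC hg _ Q_e2
  · exact Q_Gam hC hg _ (Q_aS hC)

theorem PS_mem {x : V4} {g : Module.End ℝ V4} (hg : g ∈ Gam nM (tM p) (sM p C))
    (hx : x ∈ PS p C) : g x ∈ PS p C := by
  obtain ⟨g', hg', rfl | rfl⟩ := hx
  · exact ⟨g * g', mul_mem hg hg', Or.inl rfl⟩
  · exact ⟨g * g', mul_mem hg hg', Or.inr rfl⟩

end

theorem pf_SPB : T_SPB := by
  intro p C hp hC0 hC1 _ x hx y hy
  have hC : 0 ≤ 1 - C ^ 2 := by nlinarith
  have hcs : Real.sin (2 * Real.pi / p) ^ 2 = 1 - Real.cos (2 * Real.pi / p) ^ 2 := by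
    have := Real.sin_sq_add_cos_sq (2 * Real.pi / p)
    linarith
  obtain ⟨hx1, ⟨A, hA, hA'⟩, -⟩ := Q_PS hC hx
  obtain ⟨hy1, -, ⟨B, hB, hB'⟩⟩ := Q_PS hC hy
  constructor
  · refine ⟨y, hy, A y, PS_mem hA hy, ?_⟩
    rw [hA' y hy1.1, first hy1]
    rfl
  · refine ⟨B x, PS_mem hB hx, A y, PS_mem hA hy, ?_⟩
    rw [hA' y hy1.1, hB' x hx1.1, second hcs hx1 hy1]
    rfl

end Pool.Agent.H1.TOH.Spb
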